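import Pool.Agent.Lib_MP_418a80_ab.Final
import Pool.Agent.Lib_MP_418a80_ab.Stmt

/-!
# Ergodic cocycle perturbations for noncompact abelian groups

For a second countable noncompact locally compact abelian group `G` and a II₁ factor `M` with
separable predual, every action of `G` on `M` whose crossed product is a factor (in particular
every strictly outer action) admits an ergodic cocycle perturbation.
-/

set_option autoImplicit false

open MeasureTheory TopologicalSpace

namespace Pool.Agent.ErgCocKept.AbelianGroups

open Pool.Agent.AbCoc

universe u v

theorem result {G : Type v} [CommGroup G] [TopologicalSpace G] [IsTopologicalGroup G]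
    [SecondCountableTopology G] [LocallyCompactSpace G] [T2Space G] [NoncompactSpace G]
    [MeasurableSpace G] [BorelSpace G] (μ : Measure G) [μ.IsHaarMeasure]
    {H : Type u} [NormedAddCommGroup H] [InnerProductSpace ℂ H] [CompleteSpace H]
    [SeparableSpace H] (M : VonNeumannAlgebra H) (hM : IsII1Factor M)
    (α : G → (H →L[ℂ] H) → (H →L[ℂ] H)) (hα : IsAction M α)
    (hout : ErgCP.IsStrictlyOuter μ M α ∨ ErgCP.CrossedProductIsFactor μ M α) :
    ∃ v : G → (H →L[ℂ] H), IsCocycle M α v ∧ PerturbationIsErgodic M α v := by
  rcases hout with h | h
  · exact abelian_theorem μ hM hα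
      (((ErgCP.isStrictlyOuter_iff μ M α).1 h).crossedProductIsFactor μ)
  · exact abelian_theorem μ hM hα ((ErgCP.crossedProductIsFactor_iff μ M α).1 h)

end Pool.Agent.ErgCocKept.AbelianGroups
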