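import Pool.Agent.Lib_MP_418a80_an.FSym

/-!
# Every discrete group has a strictly outer action without ergodic cocycle perturbation

For every discrete group `G` (of any cardinality, for instance an infinite amenable one such as
`ℤ`) there are a II₁ factor `M` (with non-separable predual) and a strictly outer action of `G` on
`M` none of whose cocycle perturbations is ergodic.
-/

set_option linter.unusedSectionVars false

namespace Pool.Agent.ErgCocKept.EveryDiscreteGroup

open Pool.Agent.ErgCoc
open Classical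

universe u

section

variable (G : Type u) [Group G]

/-- the index set of the finitary permutations -/
abbrev Idx : Type u := (G × ℕ) ⊕ Set (G × ℕ)

/-- `G` acts on the index set by translation on the first part, trivially on the second. -/
def shift : G →* Equiv.Perm (Idx G) where
  toFun g := Equiv.sumCongr (Equiv.prodCongr (Equiv.mulLeft g) (Equiv.refl ℕ)) (Equiv.refl _)
  map_one' := by
    ext x
    rcases x with ⟨a, n⟩ | y <;> simp
  map_mul' g h := by
    ext x
    rcases x with ⟨a, n⟩ | y <;> simp [mul_assoc]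

theorem shift_inl (g a : G) (n : ℕ) : shift G g (Sum.inl (a, n)) = Sum.inl (g * a, n) := rfl

theorem shift_inr (g : G) (y : Set (G × ℕ)) : shift G g (Sum.inr y) = Sum.inr y := rfl

theorem shift_not_mem {g : G} (hg : g ≠ 1) : shift G g ∉ FSym (Idx G) := by
  intro h
  rw [mem_FSym] at h
  have hinj : Function.Injective (fun n : ℕ => (Sum.inl ((1 : G), n) : Idx G)) := by
    intro n m hnm
    simpa using hnm
  refine Set.infinite_range_of_injective hinj (h.subset ?_)
  rintro _ ⟨n, rfl⟩
  simp only [Set.mem_ofPred_eq, shift_inl, mul_one]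
  intro h'
  apply hg
  simpa using h'

/-- the action on the group of finitary permutations -/
noncomputable def theta : G →* MulAut (FSym (Idx G)) := MulAut.conjNormal.comp (shift G)

/-- the implementing data -/
noncomputable def impl : Impl G (FSym (Idx G)) :=
  mkImpl (theta G) (fun _ _ => 1) (by simp) (by simp)

theorem impl_free : (impl G).Free := by
  refine mkImpl_free _ _ _ _ ?_
  intro g hg t
  left
  refine twisted_infinite (shift G g) t ?_
  intro h
  exact shift_not_mem G hg (h ▸ t.2)

/-- Two points of the second part of the index set that avoid a set of size at most `G × ℕ`. -/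
theorem exists_two_points (B : Set (Idx G)) (e : G × ℕ → Idx G) (hB : B ⊆ Set.range e) :
    ∃ a b : Set (G × ℕ), a ≠ b ∧ (Sum.inr a : Idx G) ∉ B ∧ (Sum.inr b : Idx G) ∉ B := by
  by_contra hcon
  push Not at hcon
  -- all points but one are hit
  obtain ⟨j0, hj0⟩ : ∃ j0 : Set (G × ℕ), ∀ j, j ≠ j0 → (Sum.inr j : Idx G) ∈ B := by
    by_cases h : ∃ j0 : Set (G × ℕ), (Sum.inr j0 : Idx G) ∉ B
    · obtain ⟨j0, h0⟩ := h
      exact ⟨j0, fun j hj => hcon j0 j hj.symm h0⟩
    · push Not at h
      exact ⟨∅, fun j _ => h j⟩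
  let F : Option (G × ℕ) → Set (G × ℕ) := fun o =>
    match o with
    | none => j0
    | some x => match e x with
      | Sum.inl _ => j0
      | Sum.inr j => j
  have hF : Function.Surjective F := by
    intro j
    by_cases hj : j = j0
    · exact ⟨none, hj.symm⟩
    · obtain ⟨x, hx⟩ := hB (hj0 j hj)
      refine ⟨some x, ?_⟩
      simp only [F, hx]
  have h1 := Cardinal.mk_le_of_surjective hF
  rw [Cardinal.mk_set, Cardinal.mk_option,
    Cardinal.add_one_eq (Cardinal.aleph0_le_mk (G × ℕ))] at h1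
  exact absurd (Cardinal.cantor (Cardinal.mk (G × ℕ))) (not_lt.2 h1)

theorem not_ergodic (v : G → (L2 (FSym (Idx G)) →L[ℂ] L2 (FSym (Idx G))))
    (hv : IsCocycle (LG (FSym (Idx G))) (impl G).act v) :
    ¬ PerturbationIsErgodic (LG (FSym (Idx G))) (impl G).act v := by
  intro herg
  -- the union of the supports
  let supp : G → Set (FSym (Idx G)) := fun g => {γ | (v g (dl 1)) γ ≠ 0}
  have hsupp : ∀ g, (supp g).Countable := by
    intro g
    have h1 := (summable_norm_sq (v g (dl 1))).countable_support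
    refine h1.mono ?_
    intro γ hγ
    simp only [Function.mem_support]
    have : (v g (dl 1)) γ ≠ 0 := hγ
    positivity
  let Bg : G → Set (Idx G) := fun g => ⋃ γ ∈ supp g, {x | (γ : Equiv.Perm (Idx G)) x ≠ x}
  have hBg : ∀ g, (Bg g).Countable := by
    intro g
    refine (hsupp g).biUnion ?_
    intro γ _
    exact (mem_FSym.1 γ.2).countable
  have henum : ∀ g, ∃ f : ℕ → Idx G, Bg g ⊆ Set.range f := by
    intro g
    exact (Set.countable_iff_exists_subset_range).1 (hBg g)
  choose f hf using henum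
  obtain ⟨a, b, hab, ha, hb⟩ := exists_two_points G (⋃ g, Bg g) (fun p => f p.1 p.2) (by
    intro x hx
    obtain ⟨g, hg⟩ := Set.mem_iUnion.1 hx
    obtain ⟨n, hn⟩ := hf g hg
    exact ⟨(g, n), hn⟩)
  -- the transposition
  let τ : FSym (Idx G) := ⟨Equiv.swap (Sum.inr a) (Sum.inr b), swap_mem_FSym _ _⟩
  have hfix : ∀ g, ∀ γ ∈ supp g, (γ : Equiv.Perm (Idx G)) (Sum.inr a) = Sum.inr a ∧
      (γ : Equiv.Perm (Idx G)) (Sum.inr b) = Sum.inr b := by
    intro g γ hγ
    constructor
    · by_contra h
      exact ha (Set.mem_iUnion.2 ⟨g, Set.mem_biUnion hγ h⟩)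
    · by_contra h
      exact hb (Set.mem_iUnion.2 ⟨g, Set.mem_biUnion hγ h⟩)
  have hcomm : ∀ g, ∀ γ ∈ supp g, τ * γ = γ * τ := by
    intro g γ hγ
    obtain ⟨h1, h2⟩ := hfix g γ hγ
    apply Subtype.ext
    show Equiv.swap (Sum.inr a) (Sum.inr b) * (γ : Equiv.Perm (Idx G)) =
      (γ : Equiv.Perm (Idx G)) * Equiv.swap (Sum.inr a) (Sum.inr b)
    rw [Equiv.mul_swap_eq_swap_mul, h1, h2]
  -- `λ_τ` commutes with every `v_g`
  have hvcomm : ∀ g, v g * lam τ = lam τ * v g := by
    intro g
    have hvm : v g ∈ LG (FSym (Idx G)) := hv.mem g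
    refine LG_ext (mul_mem hvm (lam_mem τ)) (mul_mem (lam_mem τ) hvm) ?_
    ext s
    rw [mulv, mulv, lam_dl, mul_one, LG_coeff hvm, lam_apply]
    by_cases h1 : s * τ⁻¹ ∈ supp g
    · have h2 := hcomm g _ h1
      have h3 : τ⁻¹ * s = s * τ⁻¹ := by
        rw [inv_mul_eq_iff_eq_mul, h2]; simp
      rw [h3]
    · by_cases h2 : τ⁻¹ * s ∈ supp g
      · have h3 := hcomm g _ h2
        have h4 : s * τ⁻¹ = τ⁻¹ * s := by
          rw [mul_inv_eq_iff_eq_mul, ← h3]; simp
        rw [h4]
      · have h3 : (v g (dl 1)) (s * τ⁻¹) = 0 := not_not.1 h1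
        have h4 : (v g (dl 1)) (τ⁻¹ * s) = 0 := not_not.1 h2
        rw [h3, h4]
  -- `λ_τ` is fixed by the action
  have hact : ∀ g, (impl G).act g (lam τ) = lam τ := by
    intro g
    show (impl G).u g * lam τ * (impl G).u g⁻¹ = lam τ
    unfold impl
    rw [mkImpl_conj_lam]
    have h1 : theta G g τ = τ := by
      apply Subtype.ext
      show ((MulAut.conjNormal (shift G g) τ : FSym (Idx G)) : Equiv.Perm (Idx G)) = τ
      rw [MulAut.conjNormal_apply]
      show shift G g * Equiv.swap (Sum.inr a) (Sum.inr b) * (shift G g)⁻¹ =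
        Equiv.swap (Sum.inr a) (Sum.inr b)
      rw [Equiv.mul_swap_eq_swap_mul, shift_inr, shift_inr, mul_inv_cancel_right]
    rw [h1]; simp
  -- hence by the perturbation
  obtain ⟨c, hc⟩ := herg (lam τ) (lam_mem τ) (by
    intro g
    rw [hact, hvcomm, mul_assoc, hv.mul_star_self, mul_one])
  -- but it is not a scalar
  have h2 := congrArg (fun T => (T (dl 1)) τ) hc
  have hτ : τ ≠ 1 := by
    intro h
    have h3 := congrArg (fun σ : FSym (Idx G) => (σ : Equiv.Perm (Idx G)) (Sum.inr a)) h
    simp [τ] at h3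
    exact hab h3.symm
  have h3 : ((c • (1 : L2 (FSym (Idx G)) →L[ℂ] L2 (FSym (Idx G)))) (dl 1)) τ = 0 := by
    show c • ((dl 1 : L2 (FSym (Idx G))) τ) = 0
    rw [dl_apply, if_neg hτ]; simp
  have h4 : ((lam τ) (dl 1) : L2 (FSym (Idx G))) τ = 1 := by
    rw [lam_dl, mul_one, dl_apply, if_pos rfl]
  have h5 : (1 : ℂ) = 0 := by
    rw [← h4, ← h3]; exact h2
  exact one_ne_zero h5

end

/-- For every discrete group `G` there are a II₁ factor `M` and a strictly outer action `α` of `G`
on `M` such that no cocycle perturbation of `α` is ergodic. (`J` exhibits `K` as `ℓ²(G, H)`, on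
which the crossed product acts.) -/
theorem everyDiscreteGroup : ∀ (G : Type u) [Group G],
    ∃ (H : Type u) (_ : NormedAddCommGroup H) (_ : InnerProductSpace ℂ H) (_ : CompleteSpace H)
      (K : Type u) (_ : NormedAddCommGroup K) (_ : InnerProductSpace ℂ K) (_ : CompleteSpace K)
      (M : VonNeumannAlgebra H) (α : G → (H →L[ℂ] H) → (H →L[ℂ] H)) (J : G → H →L[ℂ] K),
      IsII1Factor M ∧ IsAction M α ∧ IsEllTwo J ∧ IsStrictlyOuter M α J ∧
        ∀ v : G → (H →L[ℂ] H), IsCocycle M α v → ¬ PerturbationIsErgodic M α v := by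
  intro G _
  exact ⟨L2 (FSym (Idx G)), inferInstance, inferInstance, inferInstance,
    lp (fun _ : G => L2 (FSym (Idx G))) 2, inferInstance, inferInstance, inferInstance,
    LG (FSym (Idx G)), (impl G).act, Impl.J G (FSym (Idx G)), LG_isII1Factor FSym_ICC,
    (impl G).isAction, Impl.isEllTwo, (impl G).strictlyOuter FSym_ICC (impl_free G),
    not_ergodic G⟩

end Pool.Agent.ErgCocKept.EveryDiscreteGroup
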